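import Mathlib

set_option linter.all false

/-!
The free group `F g n` of rank `2 g + n` with its boundary word `R g n`.
-/

namespace Pool.Agent.HMv

/-- The free group on `a_0, b_0, …, a_{g-1}, b_{g-1}, c_0, …, c_{n-1}`: the fundamental group of
a surface of genus `g` with `n` punctures and one boundary component. -/
abbrev F (g n : ℕ) : Type := FreeGroup ((Fin g × Bool) ⊕ Fin n)

/-- The generator `a_i`. -/
def a {g : ℕ} (n : ℕ) (i : Fin g) : F g n := FreeGroup.of (Sum.inl (i, false))

/-- The generator `b_i`. -/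
def b {g : ℕ} (n : ℕ) (i : Fin g) : F g n := FreeGroup.of (Sum.inl (i, true))

/-- The generator `c_j`. -/
def c (g : ℕ) {n : ℕ} (j : Fin n) : F g n := FreeGroup.of (Sum.inr j)

/-- The boundary word `R = [a_0, b_0] ⋯ [a_{g-1}, b_{g-1}] c_0 ⋯ c_{n-1}`. -/
def R (g n : ℕ) : F g n :=
  (List.ofFn fun i : Fin g => a n i * b n i * (a n i)⁻¹ * (b n i)⁻¹).prod *
    (List.ofFn fun j : Fin n => c g j).prod

end Pool.Agent.HMv
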