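import Mathlib
import Pool.Agent.Lib.MP_943dad_ag.HMv.Defs

set_option linter.all false

/-!
Handle moves on lists of handles `(x, y)` and punctures `c` in a group, their lifting along
homomorphisms, and the soundness theorem: a chain of moves starting at the standard basis of
the free group `F g n` is an automorphism of `F g n` which fixes the boundary word `R g n` and
maps each `c_j` to a conjugate of `c_j`.
-/

namespace Pool.Agent.HMv

universe u v w

/-- A handle `(x, y)` or a puncture `c`. -/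
inductive Item (G : Type u)
  | hd (x y : G) : Item G
  | pt (c : G) : Item G

open Item

/-! ### Moves -/

section Moves

variable {G : Type u} [Group G]

/-- The moves. -/
inductive Mv : List (Item G) → List (Item G) → Prop
  | refl (L : List (Item G)) : Mv L L
  | trans {L M N : List (Item G)} : Mv L M → Mv M N → Mv L N
  | symm {L M : List (Item G)} : Mv L M → Mv M L
  | cons (p : Item G) {L M : List (Item G)} : Mv L M → Mv (p :: L) (p :: M)
  | twist (x y : G) (k : ℤ) (L : List (Item G)) : Mv (hd x y :: L) (hd (x * y ^ k) y :: L)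
  | rot (x y : G) (L : List (Item G)) : Mv (hd x y :: L) (hd (x * y * x⁻¹) (x⁻¹) :: L)
  | dd (p q r s : G) (k : ℤ) (L : List (Item G)) :
      Mv (hd p q :: hd r s :: L)
        (hd (p * (q⁻¹ * r * s * r⁻¹) ^ k)
            ((q⁻¹ * r * s * r⁻¹) ^ (-k) * q * (q⁻¹ * r * s * r⁻¹) ^ k) ::
          hd ((q⁻¹ * r * s * r⁻¹) ^ (-k) * r) s :: L)
  | exch (p q r s : G) (L : List (Item G)) :
      Mv (hd p q :: hd r s :: L)
        (hd ((p * q * p⁻¹ * q⁻¹) * r * (p * q * p⁻¹ * q⁻¹)⁻¹)
            ((p * q * p⁻¹ * q⁻¹) * s * (p * q * p⁻¹ * q⁻¹)⁻¹) :: hd p q :: L)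
  | exchP (p q r : G) (L : List (Item G)) :
      Mv (hd p q :: pt r :: L)
        (pt ((p * q * p⁻¹ * q⁻¹) * r * (p * q * p⁻¹ * q⁻¹)⁻¹) :: hd p q :: L)
  | dp (p q r : G) (k : ℤ) (L : List (Item G)) :
      Mv (hd p q :: pt r :: L)
        (hd (p * (q⁻¹ * r) ^ k) ((q⁻¹ * r) ^ (-k) * q * (q⁻¹ * r) ^ k) ::
          pt ((q⁻¹ * r) ^ (-k) * r * (q⁻¹ * r) ^ k) :: L)
  | exchQ (p q r : G) (L : List (Item G)) :
      Mv (hd p q :: pt r :: L) (pt r :: hd (r⁻¹ * p * r) (r⁻¹ * q * r) :: L)
  | push (p q r s : G) (L : List (Item G)) :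
      Mv (hd p q :: hd r s :: L)
        (hd p ((r * s * r⁻¹ * s⁻¹)⁻¹ * q) ::
          hd (((r * s * r⁻¹ * s⁻¹)⁻¹ * q * p * q⁻¹) * r * ((r * s * r⁻¹ * s⁻¹)⁻¹ * q * p * q⁻¹)⁻¹)
            (((r * s * r⁻¹ * s⁻¹)⁻¹ * q * p * q⁻¹) * s * ((r * s * r⁻¹ * s⁻¹)⁻¹ * q * p * q⁻¹)⁻¹) :: L)

/-- The value of an item: the commutator of a handle, the element of a puncture. -/
def Item.val : Item G → G
  | hd x y => x * y * x⁻¹ * y⁻¹
  | pt c => c

/-- The conjugacy class of a puncture. -/
def Item.cls : Item G → Option (ConjClasses G)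
  | hd _ _ => none
  | pt c => some (ConjClasses.mk c)

/-- The product of all values. -/
def cp (L : List (Item G)) : G := (L.map Item.val).prod

/-- The list of the conjugacy classes of the punctures. -/
def cls (L : List (Item G)) : List (ConjClasses G) := L.filterMap Item.cls

theorem Mv.cp_eq {L M : List (Item G)} (h : Mv L M) : cp L = cp M := by
  induction h with
  | refl L => rfl
  | trans _ _ h1 h2 => exact h1.trans h2
  | symm _ h => exact h.symm
  | cons p _ h =>
    simp only [cp, List.map_cons, List.prod_cons] at h ⊢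
    rw [h]
  | twist x y k L =>
    simp only [cp, List.map_cons, List.prod_cons, Item.val]
    congr 1
    have h : y ^ k * y = y * y ^ k := ((Commute.refl y).zpow_left k).eq
    have : x * y ^ k * y * (x * y ^ k)⁻¹ * y⁻¹ = x * (y ^ k * y) * (y ^ k)⁻¹ * x⁻¹ * y⁻¹ := by
      group
    rw [this, h]
    group
  | rot x y L =>
    simp only [cp, List.map_cons, List.prod_cons, Item.val]
    congr 1
    group
  | dd p q r s k L =>
    simp only [cp, List.map_cons, List.prod_cons, Item.val, ← mul_assoc]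
    congr 1
    generalize hz : q⁻¹ * r * s * r⁻¹ = z
    have hw : z ^ k * z = z * z ^ k := ((Commute.refl z).zpow_left k).eq
    rw [zpow_neg]
    generalize z ^ k = w at hw
    have h2 : w⁻¹ * z * w = z := by
      rw [mul_assoc, ← hw]; group
    calc p * q * p⁻¹ * q⁻¹ * r * s * r⁻¹ * s⁻¹
        = p * q * p⁻¹ * (q⁻¹ * r * s * r⁻¹) * s⁻¹ := by group
      _ = p * q * p⁻¹ * (w⁻¹ * z * w) * s⁻¹ := by rw [hz, h2]
      _ = p * q * p⁻¹ * (w⁻¹ * (q⁻¹ * r * s * r⁻¹) * w) * s⁻¹ := by rw [hz]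
      _ = _ := by group
  | exch p q r s L =>
    simp only [cp, List.map_cons, List.prod_cons, Item.val, ← mul_assoc]
    congr 1
    group
  | exchP p q r L =>
    simp only [cp, List.map_cons, List.prod_cons, Item.val, ← mul_assoc]
    congr 1
    group
  | dp p q r k L =>
    simp only [cp, List.map_cons, List.prod_cons, Item.val, ← mul_assoc]
    congr 1
    generalize hz : q⁻¹ * r = z
    have hw : z ^ k * z = z * z ^ k := ((Commute.refl z).zpow_left k).eq
    rw [zpow_neg]
    generalize z ^ k = w at hw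
    have h2 : w⁻¹ * z * w = z := by
      rw [mul_assoc, ← hw]; group
    calc p * q * p⁻¹ * q⁻¹ * r
        = p * q * p⁻¹ * (q⁻¹ * r) := by group
      _ = p * q * p⁻¹ * (w⁻¹ * z * w) := by rw [hz, h2]
      _ = p * q * p⁻¹ * (w⁻¹ * (q⁻¹ * r) * w) := by rw [hz]
      _ = _ := by group
  | exchQ p q r L =>
    simp only [cp, List.map_cons, List.prod_cons, Item.val, ← mul_assoc]
    congr 1
    group
  | push p q r s L =>
    simp only [cp, List.map_cons, List.prod_cons, Item.val, ← mul_assoc]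
    congr 1
    group

theorem cls_conj (r w : G) : ConjClasses.mk (w * r * w⁻¹) = ConjClasses.mk r := by
  rw [ConjClasses.mk_eq_mk_iff_isConj]
  exact (isConj_iff.2 ⟨w, rfl⟩).symm

theorem cls_conj' (r w : G) : ConjClasses.mk (w⁻¹ * r * w) = ConjClasses.mk r := by
  have := cls_conj r w⁻¹
  rwa [inv_inv] at this

theorem Mv.cls_eq {L M : List (Item G)} (h : Mv L M) : cls L = cls M := by
  induction h with
  | refl L => rfl
  | trans _ _ h1 h2 => exact h1.trans h2
  | symm _ h => exact h.symm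
  | cons p _ h =>
    simp only [cls, List.filterMap_cons] at h ⊢
    rw [h]
  | twist x y k L => simp [cls, List.filterMap_cons, Item.cls]
  | rot x y L => simp [cls, List.filterMap_cons, Item.cls]
  | dd p q r s k L => simp [cls, List.filterMap_cons, Item.cls]
  | exch p q r s L => simp [cls, List.filterMap_cons, Item.cls]
  | exchP p q r L =>
    simp only [cls, List.filterMap_cons, Item.cls]
    rw [cls_conj]
  | dp p q r k L =>
    simp only [cls, List.filterMap_cons, Item.cls, zpow_neg]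
    rw [cls_conj']
  | exchQ p q r L => simp [cls, List.filterMap_cons, Item.cls]
  | push p q r s L => simp [cls, List.filterMap_cons, Item.cls]

theorem Mv.length_eq {L M : List (Item G)} (h : Mv L M) : L.length = M.length := by
  induction h with
  | refl L => rfl
  | trans _ _ h1 h2 => exact h1.trans h2
  | symm _ h => exact h.symm
  | cons p _ h => simp [h]
  | twist x y k L => simp
  | rot x y L => simp
  | dd p q r s k L => simp
  | exch p q r s L => simp
  | exchP p q r L => simp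
  | dp p q r k L => simp
  | exchQ p q r L => simp
  | push p q r s L => simp

theorem Mv.app_left {L M : List (Item G)} (h : Mv L M) : ∀ A : List (Item G),
    Mv (A ++ L) (A ++ M)
  | [] => h
  | p :: A => Mv.cons p (Mv.app_left h A)

theorem Mv.app_right {L M : List (Item G)} (h : Mv L M) (T : List (Item G)) :
    Mv (L ++ T) (M ++ T) := by
  induction h with
  | refl L => exact Mv.refl _
  | trans _ _ h1 h2 => exact h1.trans h2
  | symm _ h => exact h.symm
  | cons p _ h => exact Mv.cons p h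
  | twist x y k L => exact Mv.twist x y k _
  | rot x y L => exact Mv.rot x y _
  | dd p q r s k L => exact Mv.dd p q r s k _
  | exch p q r s L => exact Mv.exch p q r s _
  | exchP p q r L => exact Mv.exchP p q r _
  | dp p q r k L => exact Mv.dp p q r k _
  | exchQ p q r L => exact Mv.exchQ p q r _
  | push p q r s L => exact Mv.push p q r s _

/-- The inverse rotation. -/
theorem Mv.rotInv (r s : G) (L : List (Item G)) :
    Mv (hd r s :: L) (hd (s⁻¹) (s * r * s⁻¹) :: L) := by
  have h := Mv.rot (s⁻¹) (s * r * s⁻¹) L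
  have e1 : s⁻¹ * (s * r * s⁻¹) * s⁻¹⁻¹ = r := by group
  have e2 : s⁻¹⁻¹ = s := inv_inv s
  rw [e1, e2] at h
  exact h.symm

end Moves

/-! ### Functoriality and lifting -/

section Maps

variable {G : Type u} {H : Type v} [Group G] [Group H]

/-- Apply a homomorphism to an item. -/
def Item.mp (φ : G →* H) : Item G → Item H
  | hd x y => hd (φ x) (φ y)
  | pt c => pt (φ c)

/-- Apply a homomorphism to a list of items. -/
def mp (φ : G →* H) (L : List (Item G)) : List (Item H) := L.map (Item.mp φ)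

@[simp] theorem mp_nil (φ : G →* H) : mp φ [] = [] := rfl

@[simp] theorem mp_cons (φ : G →* H) (p : Item G) (L : List (Item G)) :
    mp φ (p :: L) = p.mp φ :: mp φ L := rfl

@[simp] theorem mp_append (φ : G →* H) (L M : List (Item G)) :
    mp φ (L ++ M) = mp φ L ++ mp φ M := by simp [mp]

@[simp] theorem Item.mp_hd (φ : G →* H) (x y : G) : (hd x y).mp φ = hd (φ x) (φ y) := rfl

@[simp] theorem Item.mp_pt (φ : G →* H) (x : G) : (pt x).mp φ = pt (φ x) := rfl

theorem mp_length (φ : G →* H) (L : List (Item G)) : (mp φ L).length = L.length := by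
  simp [mp]

theorem Mv.mp {φ : G →* H} {L M : List (Item G)} (h : Mv L M) :
    Mv (mp φ L) (mp φ M) := by
  induction h with
  | refl L => exact Mv.refl _
  | trans _ _ h1 h2 => exact h1.trans h2
  | symm _ h => exact h.symm
  | cons p _ h => exact Mv.cons _ h
  | twist x y k L =>
    simp only [mp_cons, Item.mp_hd, map_mul, map_zpow]
    exact Mv.twist _ _ k _
  | rot x y L =>
    simp only [mp_cons, Item.mp_hd, map_mul, map_inv]
    exact Mv.rot _ _ _
  | dd p q r s k L =>
    simp only [mp_cons, Item.mp_hd, map_mul, map_zpow, map_inv]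
    exact Mv.dd _ _ _ _ k _
  | exch p q r s L =>
    simp only [mp_cons, Item.mp_hd, map_mul, map_inv]
    exact Mv.exch _ _ _ _ _
  | exchP p q r L =>
    simp only [mp_cons, Item.mp_hd, Item.mp_pt, map_mul, map_inv]
    exact Mv.exchP _ _ _ _
  | dp p q r k L =>
    simp only [mp_cons, Item.mp_hd, Item.mp_pt, map_mul, map_zpow, map_inv]
    exact Mv.dp _ _ _ k _
  | exchQ p q r L =>
    simp only [mp_cons, Item.mp_hd, Item.mp_pt, map_mul, map_inv]
    exact Mv.exchQ _ _ _ _
  | push p q r s L =>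
    simp only [mp_cons, Item.mp_hd, map_mul, map_inv]
    exact Mv.push _ _ _ _ _

theorem mp_eq_cons {φ : G →* H} {B : List (Item G)} {h : Item H} {L : List (Item H)}
    (e : mp φ B = h :: L) : ∃ p T, B = p :: T ∧ p.mp φ = h ∧ mp φ T = L := by
  cases B with
  | nil => simp at e
  | cons p T =>
    simp only [mp_cons, List.cons.injEq] at e
    exact ⟨p, T, rfl, e.1, e.2⟩

theorem mp_eq_cons_hd {φ : G →* H} {B : List (Item G)} {x' y' : H} {L : List (Item H)}
    (e : mp φ B = hd x' y' :: L) :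
    ∃ x y T, B = hd x y :: T ∧ φ x = x' ∧ φ y = y' ∧ mp φ T = L := by
  obtain ⟨p, T, rfl, hp, hT⟩ := mp_eq_cons e
  cases p with
  | hd x y =>
    simp only [Item.mp_hd, Item.hd.injEq] at hp
    exact ⟨x, y, T, rfl, hp.1, hp.2, hT⟩
  | pt c => simp at hp

theorem mp_eq_cons_pt {φ : G →* H} {B : List (Item G)} {x' : H} {L : List (Item H)}
    (e : mp φ B = pt x' :: L) :
    ∃ x T, B = pt x :: T ∧ φ x = x' ∧ mp φ T = L := by
  obtain ⟨p, T, rfl, hp, hT⟩ := mp_eq_cons e
  cases p with
  | hd x y => simp at hp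
  | pt c =>
    simp only [Item.mp_pt, Item.pt.injEq] at hp
    exact ⟨c, T, rfl, hp, hT⟩

theorem dd_z {q r s w z : G} (hz : q⁻¹ * r * s * r⁻¹ = z) (hw : w * z = z * w) :
    (w * q * w⁻¹)⁻¹ * (w * r) * s * (w * r)⁻¹ = z := by
  have : (w * q * w⁻¹)⁻¹ * (w * r) * s * (w * r)⁻¹ = w * (q⁻¹ * r * s * r⁻¹) * w⁻¹ := by group
  rw [this, hz, hw]
  group

theorem dp_z {q r w z : G} (hz : q⁻¹ * r = z) (hw : w * z = z * w) :
    (w * q * w⁻¹)⁻¹ * (w * r * w⁻¹) = z := by
  have : (w * q * w⁻¹)⁻¹ * (w * r * w⁻¹) = w * (q⁻¹ * r) * w⁻¹ := by group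
  rw [this, hz, hw]
  group

/-- Moves lift along homomorphisms, in both directions. -/
theorem Mv.lift_aux (φ : G →* H) {L M : List (Item H)} (h : Mv L M) :
    (∀ B : List (Item G), HMv.mp φ B = L →
      ∃ B' : List (Item G), Mv B B' ∧ HMv.mp φ B' = M) ∧
    (∀ B : List (Item G), HMv.mp φ B = M →
      ∃ B' : List (Item G), Mv B B' ∧ HMv.mp φ B' = L) := by
  induction h with
  | refl L => exact ⟨fun B hB => ⟨B, Mv.refl _, hB⟩, fun B hB => ⟨B, Mv.refl _, hB⟩⟩
  | trans _ _ h1 h2 =>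
    constructor
    · intro B hB
      obtain ⟨B1, m1, e1⟩ := h1.1 B hB
      obtain ⟨B2, m2, e2⟩ := h2.1 B1 e1
      exact ⟨B2, m1.trans m2, e2⟩
    · intro B hB
      obtain ⟨B1, m1, e1⟩ := h2.2 B hB
      obtain ⟨B2, m2, e2⟩ := h1.2 B1 e1
      exact ⟨B2, m1.trans m2, e2⟩
  | symm _ h => exact ⟨h.2, h.1⟩
  | cons p _ h =>
    constructor
    · intro B hB
      obtain ⟨x, T, rfl, hx, hT⟩ := mp_eq_cons hB
      obtain ⟨B1, m1, e1⟩ := h.1 T hT
      exact ⟨x :: B1, Mv.cons _ m1, by simp [hx, e1]⟩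
    · intro B hB
      obtain ⟨x, T, rfl, hx, hT⟩ := mp_eq_cons hB
      obtain ⟨B1, m1, e1⟩ := h.2 T hT
      exact ⟨x :: B1, Mv.cons _ m1, by simp [hx, e1]⟩
  | twist x' y' k L =>
    constructor
    · intro B hB
      obtain ⟨x, y, T, rfl, hx, hy, hT⟩ := mp_eq_cons_hd hB
      exact ⟨_, Mv.twist x y k T, by simp [hx, hy, hT]⟩
    · intro B hB
      obtain ⟨x, y, T, rfl, hx, hy, hT⟩ := mp_eq_cons_hd hB
      refine ⟨_, Mv.twist x y (-k) T, ?_⟩
      simp [hx, hy, hT]
  | rot x' y' L =>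
    constructor
    · intro B hB
      obtain ⟨x, y, T, rfl, hx, hy, hT⟩ := mp_eq_cons_hd hB
      exact ⟨_, Mv.rot x y T, by simp [hx, hy, hT]⟩
    · intro B hB
      obtain ⟨x, y, T, rfl, hx, hy, hT⟩ := mp_eq_cons_hd hB
      refine ⟨_, Mv.rotInv x y T, ?_⟩
      simp only [mp_cons, Item.mp_hd, map_mul, map_inv, hx, hy, hT]
      congr 2
      · simp
      · group
  | dd p' q' r' s' k L =>
    constructor
    · intro B hB
      obtain ⟨p, q, T, rfl, hp, hq, hT⟩ := mp_eq_cons_hd hB
      obtain ⟨r, s, T, rfl, hr, hs, hT⟩ := mp_eq_cons_hd hT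
      exact ⟨_, Mv.dd p q r s k T, by simp [hp, hq, hr, hs, hT]⟩
    · intro B hB
      obtain ⟨p, q, T, rfl, hp, hq, hT⟩ := mp_eq_cons_hd hB
      obtain ⟨r, s, T, rfl, hr, hs, hT⟩ := mp_eq_cons_hd hT
      refine ⟨_, Mv.dd p q r s (-k) T, ?_⟩
      generalize hz : q'⁻¹ * r' * s' * r'⁻¹ = z at *
      have hw : z ^ (-k) * z = z * z ^ (-k) := ((Commute.refl z).zpow_left (-k)).eq
      have hz' : (φ q)⁻¹ * φ r * φ s * (φ r)⁻¹ = z := by
        rw [hq, hr, hs]
        have := dd_z hz hw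
        simpa only [zpow_neg, inv_inv] using this
      simp only [mp_cons, Item.mp_hd, map_mul, map_inv, map_zpow]
      simp only [hz', hT]
      simp only [hp, hq, hr, hs, neg_neg, zpow_neg]
      congr 1
      · congr 1
        · group
        · group
      · congr 2
        group
  | exch p' q' r' s' L =>
    constructor
    · intro B hB
      obtain ⟨p, q, T, rfl, hp, hq, hT⟩ := mp_eq_cons_hd hB
      obtain ⟨r, s, T, rfl, hr, hs, hT⟩ := mp_eq_cons_hd hT
      exact ⟨_, Mv.exch p q r s T, by simp [hp, hq, hr, hs, hT]⟩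
    · intro B hB
      obtain ⟨p, q, T, rfl, hp, hq, hT⟩ := mp_eq_cons_hd hB
      obtain ⟨r, s, T, rfl, hr, hs, hT⟩ := mp_eq_cons_hd hT
      have h := Mv.exch r s ((r * s * r⁻¹ * s⁻¹)⁻¹ * p * (r * s * r⁻¹ * s⁻¹))
        ((r * s * r⁻¹ * s⁻¹)⁻¹ * q * (r * s * r⁻¹ * s⁻¹)) T
      have e1 : r * s * r⁻¹ * s⁻¹ * ((r * s * r⁻¹ * s⁻¹)⁻¹ * p * (r * s * r⁻¹ * s⁻¹)) *
          (r * s * r⁻¹ * s⁻¹)⁻¹ = p := by group
      have e2 : r * s * r⁻¹ * s⁻¹ * ((r * s * r⁻¹ * s⁻¹)⁻¹ * q * (r * s * r⁻¹ * s⁻¹)) *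
          (r * s * r⁻¹ * s⁻¹)⁻¹ = q := by group
      rw [e1, e2] at h
      refine ⟨_, h.symm, ?_⟩
      simp only [mp_cons, Item.mp_hd, map_mul, map_inv, hT, hp, hq, hr, hs]
      congr 3
      · group
      · group
  | exchP p' q' r' L =>
    constructor
    · intro B hB
      obtain ⟨p, q, T, rfl, hp, hq, hT⟩ := mp_eq_cons_hd hB
      obtain ⟨r, T, rfl, hr, hT⟩ := mp_eq_cons_pt hT
      exact ⟨_, Mv.exchP p q r T, by simp [hp, hq, hr, hT]⟩
    · intro B hB
      obtain ⟨p, T, rfl, hp, hT⟩ := mp_eq_cons_pt hB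
      obtain ⟨r, s, T, rfl, hr, hs, hT⟩ := mp_eq_cons_hd hT
      have h := Mv.exchP r s ((r * s * r⁻¹ * s⁻¹)⁻¹ * p * (r * s * r⁻¹ * s⁻¹)) T
      have e1 : r * s * r⁻¹ * s⁻¹ * ((r * s * r⁻¹ * s⁻¹)⁻¹ * p * (r * s * r⁻¹ * s⁻¹)) *
          (r * s * r⁻¹ * s⁻¹)⁻¹ = p := by group
      rw [e1] at h
      refine ⟨_, h.symm, ?_⟩
      simp only [mp_cons, Item.mp_hd, Item.mp_pt, map_mul, map_inv, hT, hp, hr, hs]
      congr 3
      group
  | dp p' q' r' k L =>
    constructor
    · intro B hB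
      obtain ⟨p, q, T, rfl, hp, hq, hT⟩ := mp_eq_cons_hd hB
      obtain ⟨r, T, rfl, hr, hT⟩ := mp_eq_cons_pt hT
      exact ⟨_, Mv.dp p q r k T, by simp [hp, hq, hr, hT]⟩
    · intro B hB
      obtain ⟨p, q, T, rfl, hp, hq, hT⟩ := mp_eq_cons_hd hB
      obtain ⟨r, T, rfl, hr, hT⟩ := mp_eq_cons_pt hT
      refine ⟨_, Mv.dp p q r (-k) T, ?_⟩
      generalize hz : q'⁻¹ * r' = z at *
      have hw : z ^ (-k) * z = z * z ^ (-k) := ((Commute.refl z).zpow_left (-k)).eq
      have hz' : (φ q)⁻¹ * φ r = z := by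
        rw [hq, hr]
        have := dp_z hz hw
        simpa only [zpow_neg, inv_inv] using this
      simp only [mp_cons, Item.mp_hd, Item.mp_pt, map_mul, map_inv, map_zpow]
      simp only [hz', hT]
      simp only [hp, hq, hr, neg_neg, zpow_neg]
      congr 1
      · congr 1
        · group
        · group
      · congr 2
        group
  | exchQ p' q' r' L =>
    constructor
    · intro B hB
      obtain ⟨p, q, T, rfl, hp, hq, hT⟩ := mp_eq_cons_hd hB
      obtain ⟨r, T, rfl, hr, hT⟩ := mp_eq_cons_pt hT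
      exact ⟨_, Mv.exchQ p q r T, by simp [hp, hq, hr, hT]⟩
    · intro B hB
      obtain ⟨p, T, rfl, hp, hT⟩ := mp_eq_cons_pt hB
      obtain ⟨r, s, T, rfl, hr, hs, hT⟩ := mp_eq_cons_hd hT
      have h := Mv.exchQ (p * r * p⁻¹) (p * s * p⁻¹) p T
      have e1 : p⁻¹ * (p * r * p⁻¹) * p = r := by group
      have e2 : p⁻¹ * (p * s * p⁻¹) * p = s := by group
      rw [e1, e2] at h
      refine ⟨_, h.symm, ?_⟩
      simp only [mp_cons, Item.mp_hd, Item.mp_pt, map_mul, map_inv, hT, hp, hr, hs]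
      congr 2
      · group
      · group
  | push p' q' r' s' L =>
    constructor
    · intro B hB
      obtain ⟨p, q, T, rfl, hp, hq, hT⟩ := mp_eq_cons_hd hB
      obtain ⟨r, s, T, rfl, hr, hs, hT⟩ := mp_eq_cons_hd hT
      exact ⟨_, Mv.push p q r s T, by simp [hp, hq, hr, hs, hT]⟩
    · intro B hB
      obtain ⟨p, q, T, rfl, hp, hq, hT⟩ := mp_eq_cons_hd hB
      obtain ⟨r, s, T, rfl, hr, hs, hT⟩ := mp_eq_cons_hd hT
      have h := Mv.push p
        (((r * s * r⁻¹ * s⁻¹)⁻¹ * q * p * q⁻¹)⁻¹ * (r * s * r⁻¹ * s⁻¹) *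
          ((r * s * r⁻¹ * s⁻¹)⁻¹ * q * p * q⁻¹) * q)
        (((r * s * r⁻¹ * s⁻¹)⁻¹ * q * p * q⁻¹)⁻¹ * r * ((r * s * r⁻¹ * s⁻¹)⁻¹ * q * p * q⁻¹))
        (((r * s * r⁻¹ * s⁻¹)⁻¹ * q * p * q⁻¹)⁻¹ * s * ((r * s * r⁻¹ * s⁻¹)⁻¹ * q * p * q⁻¹)) T
      refine ⟨hd p
        (((r * s * r⁻¹ * s⁻¹)⁻¹ * q * p * q⁻¹)⁻¹ * (r * s * r⁻¹ * s⁻¹) *
          ((r * s * r⁻¹ * s⁻¹)⁻¹ * q * p * q⁻¹) * q) ::
        hd (((r * s * r⁻¹ * s⁻¹)⁻¹ * q * p * q⁻¹)⁻¹ * r * ((r * s * r⁻¹ * s⁻¹)⁻¹ * q * p * q⁻¹))
        (((r * s * r⁻¹ * s⁻¹)⁻¹ * q * p * q⁻¹)⁻¹ * s * ((r * s * r⁻¹ * s⁻¹)⁻¹ * q * p * q⁻¹)) :: T,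
        ?_, ?_⟩
      · refine Mv.symm ?_
        convert h using 1
        congr 1
        · congr 1
          group
        · congr 1
          congr 1
          · group
          · group
      · simp only [mp_cons, Item.mp_hd, map_mul, map_inv, hT, hp, hq, hr, hs]
        congr 1
        · congr 1
          group
        · congr 2
          · group
          · group

theorem Mv.lift (φ : G →* H) {B : List (Item G)} {M : List (Item H)}
    (h : Mv (HMv.mp φ B) M) :
    ∃ B' : List (Item G), Mv B B' ∧ HMv.mp φ B' = M :=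
  (Mv.lift_aux φ h).1 B rfl

end Maps

/-! ### Lists of handles and lists of punctures -/

section Hds

variable {G : Type u} {H : Type v} [Group G] [Group H]

/-- A list of handles. -/
def hds (L : List (G × G)) : List (Item G) := L.map fun p => hd p.1 p.2

/-- A list of punctures. -/
def pts (C : List G) : List (Item G) := C.map fun x => pt x

/-- Apply a homomorphism to a list of pairs. -/
def pmap (φ : G →* H) (L : List (G × G)) : List (H × H) := L.map fun p => (φ p.1, φ p.2)

@[simp] theorem hds_nil : hds ([] : List (G × G)) = [] := rfl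

@[simp] theorem hds_cons (p : G × G) (L : List (G × G)) : hds (p :: L) = hd p.1 p.2 :: hds L :=
  rfl

@[simp] theorem hds_append (L M : List (G × G)) : hds (L ++ M) = hds L ++ hds M := by
  simp [hds]

@[simp] theorem pts_nil : pts ([] : List G) = [] := rfl

@[simp] theorem pts_cons (p : G) (L : List G) : pts (p :: L) = pt p :: pts L :=
  rfl

@[simp] theorem pmap_nil (φ : G →* H) : pmap φ [] = [] := rfl

@[simp] theorem pmap_cons (φ : G →* H) (p : G × G) (L : List (G × G)) :
    pmap φ (p :: L) = (φ p.1, φ p.2) :: pmap φ L := rfl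

@[simp] theorem pmap_append (φ : G →* H) (L M : List (G × G)) :
    pmap φ (L ++ M) = pmap φ L ++ pmap φ M := by simp [pmap]

@[simp] theorem pmap_length (φ : G →* H) (L : List (G × G)) :
    (pmap φ L).length = L.length := by simp [pmap]

theorem mp_hds (φ : G →* H) (L : List (G × G)) : mp φ (hds L) = hds (pmap φ L) := by
  simp [mp, hds, pmap]

theorem mp_pts (φ : G →* H) (C : List G) : mp φ (pts C) = pts (C.map φ) := by
  simp [mp, pts]

theorem hds_length (L : List (G × G)) : (hds L).length = L.length := by simp [hds]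

theorem pts_length (L : List G) : (pts L).length = L.length := by simp [pts]

theorem hds_inj {L M : List (G × G)} (h : hds L = hds M) : L = M := by
  refine List.map_injective_iff.2 ?_ h
  rintro ⟨x, y⟩ ⟨x', y'⟩ h
  simp only [Item.hd.injEq] at h
  rw [h.1, h.2]

theorem pts_inj {L M : List G} (h : pts L = pts M) : L = M := by
  refine List.map_injective_iff.2 ?_ h
  rintro x x' h
  simpa only [Item.pt.injEq] using h

theorem mp_eq_hds {φ : G →* H} : ∀ {B : List (Item G)} {L : List (H × H)}, mp φ B = hds L →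
    ∃ L', B = hds L' ∧ pmap φ L' = L
  | B, [], h => by
    cases B with
    | nil => exact ⟨[], rfl, rfl⟩
    | cons p T => simp at h
  | B, (x, y) :: L, h => by
    obtain ⟨x', y', T, rfl, hx, hy, hT⟩ := mp_eq_cons_hd h
    obtain ⟨L', rfl, hL'⟩ := mp_eq_hds hT
    exact ⟨(x', y') :: L', rfl, by simp [hx, hy, hL']⟩

theorem mp_eq_pts {φ : G →* H} : ∀ {B : List (Item G)} {L : List H}, mp φ B = pts L →
    ∃ L', B = pts L' ∧ L'.map φ = L
  | B, [], h => by
    cases B with
    | nil => exact ⟨[], rfl, rfl⟩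
    | cons p T => simp at h
  | B, x :: L, h => by
    obtain ⟨x', T, rfl, hx, hT⟩ := mp_eq_cons_pt h
    obtain ⟨L', rfl, hL'⟩ := mp_eq_pts hT
    exact ⟨x' :: L', rfl, by simp [hx, hL']⟩

theorem mp_eq_append {φ : G →* H} {B : List (Item G)} {L M : List (Item H)}
    (h : mp φ B = L ++ M) : ∃ B1 B2, B = B1 ++ B2 ∧ mp φ B1 = L ∧ mp φ B2 = M := by
  obtain ⟨A, C, h1, h2, h3⟩ := List.map_eq_append_iff.1 h
  exact ⟨A, C, h1, h2, h3⟩

theorem cls_hds_pts (L : List (G × G)) (C : List G) :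
    cls (hds L ++ pts C) = C.map ConjClasses.mk := by
  induction L with
  | nil =>
    rw [hds_nil, List.nil_append]
    induction C with
    | nil => rfl
    | cons p C ih =>
      rw [List.map_cons, ← ih, pts_cons, cls,
        List.filterMap_cons_some (f := Item.cls) (b := ConjClasses.mk p) rfl, cls]
  | cons p L ih =>
    rw [← ih, hds_cons, List.cons_append, cls, List.filterMap_cons_none (f := Item.cls) rfl, cls]

theorem cp_mp (φ : G →* H) (L : List (Item G)) : cp (mp φ L) = φ (cp L) := by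
  induction L with
  | nil => simp [cp]
  | cons p L ih =>
    simp only [cp, mp_cons, List.map_cons, List.prod_cons, map_mul] at ih ⊢
    rw [ih]
    cases p <;> simp [Item.val]

theorem Item.mp_mp {G₁ G₂ G₃ : Type*} [Group G₁] [Group G₂] [Group G₃] (φ : G₂ →* G₃)
    (ψ : G₁ →* G₂) (p : Item G₁) : (p.mp ψ).mp φ = p.mp (φ.comp ψ) := by
  cases p <;> rfl

theorem mp_mp {G₁ G₂ G₃ : Type*} [Group G₁] [Group G₂] [Group G₃] (φ : G₂ →* G₃) (ψ : G₁ →* G₂)
    (L : List (Item G₁)) : mp φ (mp ψ L) = mp (φ.comp ψ) L := by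
  simp [mp, Item.mp_mp]

theorem mp_id (L : List (Item G)) : mp (MonoidHom.id G) L = L := by
  induction L with
  | nil => rfl
  | cons p L ih =>
    rw [mp_cons, ih]
    cases p <;> rfl

end Hds

/-! ### Soundness: moves of the standard basis are automorphisms fixing `R` -/

section Sound

variable {G : Type u} [Group G]

/-- The standard basis of `F g n` as a list of items. -/
def B0 (g n : ℕ) : List (Item (F g n)) :=
  hds (List.ofFn fun i : Fin g => (a n i, b n i)) ++ pts (List.ofFn fun j : Fin n => c g j)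

theorem cp_B0 (g n : ℕ) : cp (B0 g n) = R g n := by
  simp [cp, B0, R, hds, pts, List.map_ofFn, Function.comp_def, Item.val]

/-- The homomorphism with prescribed images of the generators. -/
def hom {g n : ℕ} (L : List (G × G)) (C : List G) (hL : L.length = g) (hC : C.length = n) :
    F g n →* G :=
  FreeGroup.lift fun p => match p with
    | Sum.inl (i, false) => (L[(i : ℕ)]'(by rw [hL]; exact i.2)).1
    | Sum.inl (i, true) => (L[(i : ℕ)]'(by rw [hL]; exact i.2)).2
    | Sum.inr j => C[(j : ℕ)]'(by rw [hC]; exact j.2)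

theorem mp_hom {g n : ℕ} (L : List (G × G)) (C : List G) (hL : L.length = g)
    (hC : C.length = n) : mp (hom L C hL hC) (B0 g n) = hds L ++ pts C := by
  subst hL hC
  rw [B0, mp_append, mp_hds, mp_pts]
  congr 2
  · apply List.ext_getElem
    · simp [pmap]
    · intro i h1 h2
      simp [pmap, a, b, hom]
  · apply List.ext_getElem
    · simp
    · intro i h1 h2
      simp [c, hom]

theorem mp_B0 {g n : ℕ} (φ : F g n →* G) : mp φ (B0 g n) =
    hds (List.ofFn fun i : Fin g => (φ (a n i), φ (b n i))) ++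
      pts (List.ofFn fun j : Fin n => φ (c g j)) := by
  rw [B0, mp_append, mp_hds, mp_pts]
  simp [pmap, List.map_ofFn, Function.comp_def]

theorem hds_pts_inj {L L' : List (G × G)} {C C' : List G} (hL : L.length = L'.length)
    (h : hds L ++ pts C = hds L' ++ pts C') : L = L' ∧ C = C' := by
  obtain ⟨h1, h2⟩ := List.append_inj h (by simp [hds_length, hL])
  exact ⟨hds_inj h1, pts_inj h2⟩

theorem hom_ext {g n : ℕ} {φ ψ : F g n →* G} (h : mp φ (B0 g n) = mp ψ (B0 g n)) :
    φ = ψ := by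
  rw [mp_B0, mp_B0] at h
  obtain ⟨h1, h2⟩ := hds_pts_inj (by simp) h
  have k1 := fun i => congrFun (List.ofFn_injective h1) i
  have k2 := fun i => congrFun (List.ofFn_injective h2) i
  ext p
  rcases p with ⟨i, e⟩ | j
  · have := k1 i
    simp only [Prod.mk.injEq] at this
    cases e
    · exact this.1
    · exact this.2
  · exact k2 j

theorem exists_right_inv {g n : ℕ} (α : F g n →* F g n)
    (h : Mv (B0 g n) (mp α (B0 g n))) :
    ∃ β : F g n →* F g n, Mv (B0 g n) (mp β (B0 g n)) ∧ α.comp β = MonoidHom.id _ := by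
  obtain ⟨B', m, e⟩ := Mv.lift α (B := B0 g n) (M := B0 g n) h.symm
  obtain ⟨B1, B2, rfl, e1, e2⟩ := mp_eq_append e
  obtain ⟨L, rfl, hL⟩ := mp_eq_hds e1
  obtain ⟨C, rfl, hC⟩ := mp_eq_pts e2
  have hl : L.length = g := by
    have := congrArg List.length hL
    simpa using this
  have hc : C.length = n := by
    have := congrArg List.length hC
    simpa using this
  refine ⟨hom L C hl hc, ?_, ?_⟩
  · rw [mp_hom]; exact m
  · apply hom_ext
    rw [← mp_mp, mp_hom, e, mp_id]

/-- Soundness. -/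
theorem sound {g n : ℕ} {L : List (F g n × F g n)} {C : List (F g n)} (hl : L.length = g)
    (hc : C.length = n) (h : Mv (B0 g n) (hds L ++ pts C)) :
    ∃ α : F g n ≃* F g n, α (R g n) = R g n ∧ (∀ j : Fin n, IsConj (α (c g j)) (c g j)) ∧
      mp α.toMonoidHom (B0 g n) = hds L ++ pts C := by
  have hα : Mv (B0 g n) (mp (hom L C hl hc) (B0 g n)) := by rw [mp_hom]; exact h
  obtain ⟨β, hβ, e1⟩ := exists_right_inv _ hα
  obtain ⟨γ, hγ, e2⟩ := exists_right_inv _ hβ
  have e3 : hom L C hl hc = γ := by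
    calc hom L C hl hc = (hom L C hl hc).comp (β.comp γ) := by rw [e2, MonoidHom.comp_id]
      _ = ((hom L C hl hc).comp β).comp γ := by rw [MonoidHom.comp_assoc]
      _ = γ := by rw [e1, MonoidHom.id_comp]
  have e4 : (MonoidHom.toMulEquiv (hom L C hl hc) β (by rw [e3]; exact e2) e1).toMonoidHom =
      hom L C hl hc := by
    ext x; rfl
  refine ⟨MonoidHom.toMulEquiv (hom L C hl hc) β (by rw [e3]; exact e2) e1, ?_, ?_, ?_⟩
  · change hom L C hl hc (R g n) = R g n
    rw [← cp_B0, ← cp_mp, mp_hom, ← h.cp_eq]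
  · intro j
    change IsConj (hom L C hl hc (c g j)) (c g j)
    have h1 := hα.cls_eq
    have h2 : ∀ φ : F g n →* F g n, cls (mp φ (B0 g n)) =
        List.ofFn fun j : Fin n => ConjClasses.mk (φ (c g j)) := by
      intro φ
      rw [mp_B0, cls_hds_pts]
      simp [List.map_ofFn, Function.comp_def]
    rw [h2, ← mp_id (B0 g n), h2] at h1
    have h5 := congrFun (List.ofFn_injective h1) j
    exact (ConjClasses.mk_eq_mk_iff_isConj.1 h5).symm
  · rw [e4, mp_hom]

end Sound

/-! ### Killing handles -/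

section Kill

/-- `Kills G c`: among `c + k` handles, moves make the last `k` handles trivial. -/
def Kills (G : Type u) [Group G] (c : ℕ) : Prop :=
  ∀ (k : ℕ) (L : List (G × G)), c + k ≤ L.length →
    ∃ L1 : List (G × G), Mv (hds L) (hds (L1 ++ List.replicate k (1, 1)))

theorem kills_of_subsingleton (G : Type u) [Group G] [Subsingleton G] : Kills G 0 := by
  intro k L hL
  refine ⟨L.take (L.length - k), ?_⟩
  have : L = L.take (L.length - k) ++ List.replicate k (1, 1) := by
    conv_lhs => rw [← List.take_append_drop (L.length - k) L]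
    congr 1
    rw [List.eq_replicate_iff]
    constructor
    · simp; omega
    · intro p _
      exact Subsingleton.elim _ _
  rw [← this]
  exact Mv.refl _

theorem pmap_eq_replicate_split {G : Type u} {H : Type v} [Group G] [Group H] {φ : G →* H}
    {B : List (G × G)} {L1 : List (H × H)} {n : ℕ}
    (h : pmap φ B = L1 ++ List.replicate n (1, 1)) :
    ∃ A C : List (G × G), B = A ++ C ∧ C.length = n ∧ ∀ p ∈ C, φ p.1 = 1 ∧ φ p.2 = 1 := by
  obtain ⟨A, C, h1, h2, h3⟩ := List.map_eq_append_iff.1 h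
  refine ⟨A, C, h1, ?_, ?_⟩
  · have := congrArg List.length h3
    simpa using this
  · intro p hp
    have : (φ p.1, φ p.2) ∈ C.map fun p => (φ p.1, φ p.2) := List.mem_map_of_mem hp
    rw [h3] at this
    have := List.eq_of_mem_replicate this
    simpa using this

theorem exists_pmap_subtype {G : Type u} [Group G] (N : Subgroup G) :
    ∀ {C : List (G × G)}, (∀ p ∈ C, p.1 ∈ N ∧ p.2 ∈ N) →
      ∃ C' : List (N × N), pmap N.subtype C' = C
  | [], _ => ⟨[], rfl⟩
  | p :: C, h => by
    obtain ⟨C', hC'⟩ := exists_pmap_subtype N (C := C) (fun p hp => h p (List.mem_cons_of_mem _ hp))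
    have hp := h p List.mem_cons_self
    exact ⟨(⟨p.1, hp.1⟩, ⟨p.2, hp.2⟩) :: C', by simp [hC']⟩

theorem pmap_replicate {G : Type u} {H : Type v} [Group G] [Group H] (φ : G →* H) (k : ℕ) :
    pmap φ (List.replicate k (1, 1)) = List.replicate k (1, 1) := by
  simp [pmap]

theorem kills_ext (G : Type u) [Group G] (N : Subgroup G) [N.Normal] {c d : ℕ}
    (hQ : Kills (G ⧸ N) c) (hN : Kills N d) : Kills G (c + d) := by
  intro k L hL
  obtain ⟨L1, h1⟩ := hQ (d + k) (pmap (QuotientGroup.mk' N) L) (by rw [pmap_length]; omega)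
  rw [← mp_hds] at h1
  obtain ⟨B, hB, eB⟩ := Mv.lift (QuotientGroup.mk' N) h1
  obtain ⟨B, rfl, eB'⟩ := mp_eq_hds eB
  obtain ⟨A, C, rfl, hC, hCN⟩ := pmap_eq_replicate_split eB'
  have hCN' : ∀ p ∈ C, p.1 ∈ N ∧ p.2 ∈ N := by
    intro p hp
    have := hCN p hp
    simpa using this
  obtain ⟨C', rfl⟩ := exists_pmap_subtype N hCN'
  rw [pmap_length] at hC
  obtain ⟨L2, h2⟩ := hN k C' (by omega)
  refine ⟨A ++ pmap N.subtype L2, hB.trans ?_⟩
  have h3 := Mv.mp (φ := N.subtype) h2
  rw [mp_hds, mp_hds, pmap_append, pmap_replicate] at h3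
  rw [List.append_assoc, hds_append, hds_append A]
  exact h3.app_left _

/-- The statement about automorphisms which follows from `Kills`. -/
theorem kills_apply {H : Type v} [Group H] {g n k : ℕ} (φ : F g n →* H)
    {L1 : List (H × H)} {C1 : List H}
    (h : Mv (mp φ (B0 g n)) (hds (L1 ++ List.replicate k (1, 1)) ++ pts C1)) :
    ∃ α : F g n ≃* F g n, α (R g n) = R g n ∧ (∀ j : Fin n, IsConj (α (c g j)) (c g j)) ∧
      ∀ i : Fin g, g ≤ (i : ℕ) + k → φ (α (a n i)) = 1 ∧ φ (α (b n i)) = 1 := by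
  obtain ⟨B', m, e⟩ := Mv.lift φ h
  have hlen := m.length_eq
  obtain ⟨B1, B2, rfl, e1, e2⟩ := mp_eq_append e
  obtain ⟨L, rfl, hL⟩ := mp_eq_hds e1
  obtain ⟨C, rfl, hC⟩ := mp_eq_pts e2
  have hc : C.length = n := by
    have h1 := congrArg List.length m.cls_eq
    rw [B0, cls_hds_pts, cls_hds_pts] at h1
    simpa using h1.symm
  have hl : L.length = g := by
    rw [B0] at hlen
    simp only [List.length_append, hds_length, pts_length, List.length_ofFn] at hlen
    omega
  obtain ⟨α, hR, hcl, hα⟩ := sound hl hc m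
  refine ⟨α, hR, hcl, ?_⟩
  intro i hi
  have h1 : mp φ (mp α.toMonoidHom (B0 g n)) = hds (L1 ++ List.replicate k (1, 1)) ++ pts C1 := by
    rw [hα, e]
  rw [mp_mp, mp_B0] at h1
  have hl1 : (L1 ++ List.replicate k ((1 : H), (1 : H))).length = g := by
    rw [← hL, pmap_length, hl]
  obtain ⟨h2, -⟩ := hds_pts_inj (by rw [hl1]; simp) h1
  have h3 : (List.ofFn fun i : Fin g => ((φ.comp α.toMonoidHom) (a n i),
      (φ.comp α.toMonoidHom) (b n i)))[(i : ℕ)]'(by simp) = (1, 1) := by
    have h4 : ∀ (M M' : List (H × H)) (hM : (i : ℕ) < M.length), M = M' →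
        ∀ hM' : (i : ℕ) < M'.length, M[(i : ℕ)] = M'[(i : ℕ)] := by
      rintro M M' hM rfl hM'; rfl
    rw [h4 _ _ (by simp) h2 (by rw [hl1]; exact i.2)]
    rw [List.getElem_append_right]
    · simp
    · simp only [List.length_append, List.length_replicate] at hl1
      omega
  simp only [List.getElem_ofFn, Prod.mk.injEq] at h3
  exact h3

end Kill

end Pool.Agent.HMv
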