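import Mathlib
import Pool.Agent.Lib.MP_943dad_ag.HMv.Moves

set_option linter.all false

/-!
In a cyclic group all handles but one can be made trivial: `kills_cyclic`.
-/

namespace Pool.Agent.HMv

universe u v w

open Item

/-- Euclid's algorithm. -/
theorem euclid (P : ℤ → ℤ → Prop) (h0 : ∀ m, P m 0)
    (h1 : ∀ m n k, P (m + k * n) n → P m n) (h2 : ∀ m n, P n (-m) → P m n) :
    ∀ m n, P m n := by
  have key : ∀ (N : ℕ) (n : ℤ), n.natAbs = N → ∀ m, P m n := by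
    intro N
    induction N using Nat.strong_induction_on with
    | _ N ih =>
      intro n hn m
      by_cases h : n = 0
      · subst h; exact h0 m
      · apply h1 m n (-(m / n))
        have e : m + -(m / n) * n = m % n := by
          have := Int.emod_add_mul_ediv m n
          linarith
        rw [e]
        apply h2
        apply ih _ _ _ rfl
        rw [← hn, Int.natAbs_neg]
        have h3 := Int.emod_nonneg m h
        have h4 := Int.emod_lt_abs m h
        have h5 : ((m % n).natAbs : ℤ) < (n.natAbs : ℤ) := by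
          rw [Int.natCast_natAbs, Int.natCast_natAbs, abs_of_nonneg h3]
          exact h4
        exact_mod_cast h5
  intro m n
  exact key _ n rfl m

section

variable {G : Type u} [Group G]

/-- The handle `(r, 1)` slides over its left neighbour `(x, 1)`. -/
theorem slideA (x r : G) (k : ℤ) (L : List (Item G)) :
    Mv (hd x 1 :: hd r 1 :: L) (hd x 1 :: hd (x ^ (-k) * r) 1 :: L) := by
  have h1 := Mv.rot x 1 (hd r 1 :: L)
  have h2 := Mv.dd (x * 1 * x⁻¹) x⁻¹ r 1 k L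
  have h3 := Mv.twist (x ^ k) x⁻¹ k (hd (x ^ (-k) * r) 1 :: L)
  have h4 := Mv.rotInv 1 x⁻¹ (hd (x ^ (-k) * r) 1 :: L)
  have e2 : x * 1 * x⁻¹ * (x⁻¹⁻¹ * r * 1 * r⁻¹) ^ k = x ^ k := by simp
  have e2' : (x⁻¹⁻¹ * r * 1 * r⁻¹) ^ (-k) * x⁻¹ * (x⁻¹⁻¹ * r * 1 * r⁻¹) ^ k = x⁻¹ := by
    have : x⁻¹⁻¹ * r * 1 * r⁻¹ = x := by simp
    rw [this]; group
  have e2'' : (x⁻¹⁻¹ * r * 1 * r⁻¹) ^ (-k) * r = x ^ (-k) * r := by simp
  rw [e2, e2', e2''] at h2
  have e3 : x ^ k * x⁻¹ ^ k = 1 := by simp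
  rw [e3] at h3
  have e4 : x⁻¹ * 1 * x⁻¹⁻¹ = 1 := by simp
  rw [e4, inv_inv] at h4
  exact h1.trans (h2.trans (h3.trans h4))

/-- The handle `(x, 1)` slides over its right neighbour `(r, 1)`. -/
theorem slideB (x r : G) (k : ℤ) (L : List (Item G)) :
    Mv (hd x 1 :: hd r 1 :: L) (hd (x * r ^ (-k)) 1 :: hd r 1 :: L) := by
  have h1 := Mv.cons (hd x 1) (Mv.rot r 1 L)
  have h2 := Mv.dd x 1 (r * 1 * r⁻¹) r⁻¹ k L
  have h3 := Mv.cons (hd (x * r ^ (-k)) 1) (Mv.twist (r ^ k) r⁻¹ k L)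
  have h4 := Mv.cons (hd (x * r ^ (-k)) 1) (Mv.rotInv 1 r⁻¹ L)
  have e : (1 : G)⁻¹ * (r * 1 * r⁻¹) * r⁻¹ * (r * 1 * r⁻¹)⁻¹ = r⁻¹ := by simp
  rw [e] at h2
  have e2 : r⁻¹ ^ (-k) * 1 * r⁻¹ ^ k = 1 := by simp
  have e2' : r⁻¹ ^ k = r ^ (-k) := by simp
  have e2'' : r⁻¹ ^ (-k) * (r * 1 * r⁻¹) = r ^ k := by simp
  rw [e2, e2', e2''] at h2
  have e3 : r ^ k * r⁻¹ ^ k = 1 := by simp
  rw [e3] at h3
  have e4 : r⁻¹ * 1 * r⁻¹⁻¹ = 1 := by simp
  rw [e4, inv_inv] at h4
  exact h1.trans (h2.trans (h3.trans h4))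

theorem kills_surj {H : Type v} [Group H] {φ : G →* H} (hφ : Function.Surjective φ) {c : ℕ}
    (h : Kills G c) : Kills H c := by
  intro k L hL
  obtain ⟨L', rfl⟩ : ∃ L' : List (G × G), pmap φ L' = L := by
    clear hL
    induction L with
    | nil => exact ⟨[], rfl⟩
    | cons p L ih =>
      obtain ⟨L', rfl⟩ := ih
      obtain ⟨x, hx⟩ := hφ p.1
      obtain ⟨y, hy⟩ := hφ p.2
      exact ⟨(x, y) :: L', by simp [hx, hy]⟩
  rw [pmap_length] at hL
  obtain ⟨L1, h1⟩ := h k L' hL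
  refine ⟨pmap φ L1, ?_⟩
  have h3 := Mv.mp (φ := φ) h1
  rw [mp_hds, mp_hds, pmap_append, pmap_replicate] at h3
  exact h3

end

open Multiplicative in
theorem cyc_one (m n : ℤ) : ∀ L : List (Item (Multiplicative ℤ)),
    ∃ x, Mv (hd (ofAdd m) (ofAdd n) :: L) (hd x 1 :: L) := by
  refine euclid (fun m n => ∀ L : List (Item (Multiplicative ℤ)),
    ∃ x, Mv (hd (ofAdd m) (ofAdd n) :: L) (hd x 1 :: L)) ?_ ?_ ?_ m n
  · intro m L
    exact ⟨ofAdd m, Mv.refl _⟩
  · intro m n k h L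
    obtain ⟨x, hx⟩ := h L
    refine ⟨x, Mv.trans ?_ hx⟩
    have := Mv.twist (ofAdd m) (ofAdd n) k L
    have e : ofAdd m * ofAdd n ^ k = ofAdd (m + k * n) := by
      rw [← ofAdd_zsmul, ← ofAdd_add, smul_eq_mul]
    rwa [e] at this
  · intro m n h L
    obtain ⟨x, hx⟩ := h L
    refine ⟨x, Mv.trans ?_ hx⟩
    have := Mv.rot (ofAdd m) (ofAdd n) L
    have e : ofAdd m * ofAdd n * (ofAdd m)⁻¹ = ofAdd n := by
      rw [mul_comm (ofAdd m), mul_assoc, mul_inv_cancel, mul_one]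
    rwa [e, ← ofAdd_neg] at this

open Multiplicative in
theorem cyc_two (m n : ℤ) : ∀ L : List (Item (Multiplicative ℤ)),
    ∃ x, Mv (hd (ofAdd m) 1 :: hd (ofAdd n) 1 :: L) (hd x 1 :: hd 1 1 :: L) := by
  have hA : ∀ (m n k : ℤ) (L : List (Item (Multiplicative ℤ))),
      Mv (hd (ofAdd m) 1 :: hd (ofAdd n) 1 :: L)
        (hd (ofAdd m) 1 :: hd (ofAdd (n + k * m)) 1 :: L) := by
    intro m n k L
    have := slideA (ofAdd m) (ofAdd n) (-k) L
    have e : ofAdd m ^ (- -k) * ofAdd n = ofAdd (n + k * m) := by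
      rw [neg_neg, ← ofAdd_zsmul, ← ofAdd_add, smul_eq_mul, add_comm]
    rwa [e] at this
  have hB : ∀ (m n k : ℤ) (L : List (Item (Multiplicative ℤ))),
      Mv (hd (ofAdd m) 1 :: hd (ofAdd n) 1 :: L)
        (hd (ofAdd (m + k * n)) 1 :: hd (ofAdd n) 1 :: L) := by
    intro m n k L
    have := slideB (ofAdd m) (ofAdd n) (-k) L
    have e : ofAdd m * ofAdd n ^ (- -k) = ofAdd (m + k * n) := by
      rw [neg_neg, ← ofAdd_zsmul, ← ofAdd_add, smul_eq_mul]
    rwa [e] at this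
  refine euclid (fun m n => ∀ L : List (Item (Multiplicative ℤ)),
    ∃ x, Mv (hd (ofAdd m) 1 :: hd (ofAdd n) 1 :: L) (hd x 1 :: hd 1 1 :: L)) ?_ ?_ ?_ m n
  · intro m L
    exact ⟨ofAdd m, Mv.refl _⟩
  · intro m n k h L
    obtain ⟨x, hx⟩ := h L
    exact ⟨x, (hB m n k L).trans hx⟩
  · intro m n h L
    obtain ⟨x, hx⟩ := h L
    refine ⟨x, Mv.trans ?_ hx⟩
    have h1 := hB m n 1 L
    have h2 := hA (m + 1 * n) n (-1) L
    have h3 := hB (m + 1 * n) (n + -1 * (m + 1 * n)) 1 L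
    have e1 : n + -1 * (m + 1 * n) = -m := by ring
    have e2 : m + 1 * n + 1 * (n + -1 * (m + 1 * n)) = n := by ring
    rw [e2] at h3
    rw [e1] at h2 h3
    exact h1.trans (h2.trans h3)

theorem cyc_list : ∀ L : List (Multiplicative ℤ × Multiplicative ℤ), L ≠ [] →
    ∃ x, Mv (hds L) (hd x 1 :: hds (List.replicate (L.length - 1) (1, 1)))
  | [], h => absurd rfl h
  | [p], _ => by
    obtain ⟨x, hx⟩ := cyc_one (Multiplicative.toAdd p.1) (Multiplicative.toAdd p.2) []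
    exact ⟨x, hx⟩
  | p :: q :: T, _ => by
    obtain ⟨x, hx⟩ := cyc_list (q :: T) (by simp)
    obtain ⟨y, hy⟩ := cyc_one (Multiplicative.toAdd p.1) (Multiplicative.toAdd p.2)
      (hd x 1 :: hds (List.replicate ((q :: T).length - 1) (1, 1)))
    obtain ⟨z, hz⟩ := cyc_two (Multiplicative.toAdd y) (Multiplicative.toAdd x)
      (hds (List.replicate ((q :: T).length - 1) (1, 1)))
    refine ⟨z, ?_⟩
    have h1 := Mv.cons (hd p.1 p.2) hx
    have h2 : hd (1 : Multiplicative ℤ) 1 :: hds (List.replicate ((q :: T).length - 1) (1, 1)) =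
        hds (List.replicate ((p :: q :: T).length - 1) (1, 1)) := by
      simp [List.replicate_succ]
    rw [← h2]
    exact h1.trans (hy.trans hz)

theorem kills_int : Kills (Multiplicative ℤ) 1 := by
  intro k L hL
  obtain ⟨x, hx⟩ := cyc_list L (by rintro rfl; simp at hL)
  refine ⟨(x, 1) :: List.replicate (L.length - 1 - k) (1, 1), ?_⟩
  have e : ((x, 1) : Multiplicative ℤ × Multiplicative ℤ) ::
      List.replicate (L.length - 1 - k) (1, 1) ++
      List.replicate k (1, 1) = (x, 1) :: List.replicate (L.length - 1) (1, 1) := by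
    rw [List.cons_append, List.replicate_append_replicate]
    congr 2
    omega
  rw [e]
  exact hx

/-- In a cyclic group all handles but one can be made trivial. -/
theorem kills_cyclic (G : Type u) [Group G] [IsCyclic G] : Kills G 1 := by
  obtain ⟨t, ht⟩ := IsCyclic.exists_generator (α := G)
  have hs : Function.Surjective (zpowersHom G t) := by
    intro x
    obtain ⟨m, hm⟩ := Subgroup.mem_zpowers_iff.1 (ht x)
    exact ⟨Multiplicative.ofAdd m, by simpa using hm⟩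
  exact kills_surj hs kills_int

end Pool.Agent.HMv
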