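import Mathlib
import Pool.Agent.Lib.MP_943dad_ag.HMv.Moves
import Pool.Agent.Lib.MP_943dad_ag.HMv.Cyclic

set_option linter.all false

/-!
Killing handles in an arbitrary finite group `Q`: `kills_finite`, with `|Q| + log_2 |Q| - 1`.
The pigeonhole step is the argument of Dunfield and Thurston.
-/

namespace Pool.Agent.HMv

universe u v w

open Item

section

variable {G : Type u} [Group G]

/-- Two adjacent handles: the first coordinate becomes the product of the first coordinates. -/
theorem merge (p q r s : G) (L : List (Item G)) :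
    Mv (hd p q :: hd r s :: L)
      (hd (p * r) (r⁻¹ * q * r) :: hd (r⁻¹ * q * s⁻¹) (s * r * s⁻¹) :: L) := by
  have h1 := Mv.cons (hd p q) (Mv.rotInv r s L)
  have h2 := Mv.dd p q s⁻¹ (s * r * s⁻¹) 1 L
  have e0 : q⁻¹ * s⁻¹ * (s * r * s⁻¹) * s⁻¹⁻¹ = q⁻¹ * r := by group
  rw [e0] at h2
  have e1 : (q⁻¹ * r) ^ (1 : ℤ) = q⁻¹ * r := zpow_one _
  have e2 : (q⁻¹ * r) ^ (-1 : ℤ) = r⁻¹ * q := by
    rw [zpow_neg, zpow_one]; group
  rw [e1, e2] at h2
  have e3 : r⁻¹ * q * q * (q⁻¹ * r) = r⁻¹ * q * r := by group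
  rw [e3] at h2
  have h3 := Mv.twist (p * (q⁻¹ * r)) (r⁻¹ * q * r) 1 (hd (r⁻¹ * q * s⁻¹) (s * r * s⁻¹) :: L)
  have e4 : p * (q⁻¹ * r) * (r⁻¹ * q * r) ^ (1 : ℤ) = p * r := by
    rw [zpow_one]; group
  rw [e4] at h3
  exact h1.trans (h2.trans h3)

theorem accumulate : ∀ (S : List (G × G)), S ≠ [] → ∀ T : List (Item G),
    ∃ (y : G) (S' : List (G × G)), S'.length + 1 = S.length ∧
      Mv (hds S ++ T) (hd (S.map Prod.fst).prod y :: (hds S' ++ T))
  | [], h => absurd rfl h
  | [p], _ => fun T => ⟨p.2, [], rfl, by simpa using Mv.refl _⟩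
  | p :: q :: S, _ => fun T => by
    obtain ⟨y, S', hS', h1⟩ := accumulate (q :: S) (by simp) T
    have h2 := Mv.cons (hd p.1 p.2) h1
    have h3 := merge p.1 p.2 ((q :: S).map Prod.fst).prod y (hds S' ++ T)
    refine ⟨((q :: S).map Prod.fst).prod⁻¹ * p.2 * ((q :: S).map Prod.fst).prod,
      (((q :: S).map Prod.fst).prod⁻¹ * p.2 * y⁻¹, y * ((q :: S).map Prod.fst).prod * y⁻¹) :: S',
      ?_, h2.trans ?_⟩
    · simp only [List.length_cons] at hS' ⊢
      omega
    · have e : ((p :: q :: S).map Prod.fst).prod = p.1 * ((q :: S).map Prod.fst).prod := by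
        simp
      rw [e]
      exact h3

/-- A handle `(r, 1)` commutes with every handle. -/
theorem swap_free (r p q : G) (L : List (Item G)) :
    Mv (hd r 1 :: hd p q :: L) (hd p q :: hd r 1 :: L) := by
  have h := Mv.exch r 1 p q L
  have e : r * 1 * r⁻¹ * 1⁻¹ = 1 := by simp
  rw [e] at h
  simpa using h

theorem to_end (r : G) : ∀ (A : List (G × G)) (T : List (Item G)),
    Mv (hd r 1 :: (hds A ++ T)) (hds A ++ hd r 1 :: T)
  | [], T => Mv.refl _
  | p :: A, T => (swap_free r p.1 p.2 (hds A ++ T)).trans (Mv.cons _ (to_end r A T))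

/-- A handle `(1, y)` can be moved to the front, where it becomes `(1, y')`. -/
theorem to_front : ∀ (A : List (G × G)) (y : G) (T : List (Item G)),
    ∃ y' : G, Mv (hds A ++ hd 1 y :: T) (hd 1 y' :: (hds A ++ T))
  | [], y, T => ⟨y, Mv.refl _⟩
  | p :: A, y, T => by
    obtain ⟨y', h⟩ := to_front A y T
    have h1 := Mv.cons (hd p.1 p.2) h
    have h2 := Mv.exch p.1 p.2 1 y' (hds A ++ T)
    have e : p.1 * p.2 * p.1⁻¹ * p.2⁻¹ * 1 * (p.1 * p.2 * p.1⁻¹ * p.2⁻¹)⁻¹ = 1 := by
      rw [mul_one, mul_inv_cancel]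
    rw [e] at h2
    exact ⟨_, h1.trans h2⟩

theorem exists_prod_eq_one [Finite G] (l : List G) (h : Nat.card G ≤ l.length) :
    ∃ A S T : List G, l = A ++ (S ++ T) ∧ S ≠ [] ∧ S.prod = 1 := by
  have hc : Nat.card G < Nat.card (Fin (l.length + 1)) := by simp; omega
  have hf : ¬ Function.Injective (fun i : Fin (l.length + 1) => (l.take i).prod) := by
    intro hinj
    have := Nat.card_le_card_of_injective _ hinj
    omega
  have key : ∀ i j : ℕ, i < j → j ≤ l.length → (l.take i).prod = (l.take j).prod →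
      ∃ A S T : List G, l = A ++ (S ++ T) ∧ S ≠ [] ∧ S.prod = 1 := by
    intro i j hij hj hp
    have e1 : (l.take j).take i = l.take i := by
      rw [List.take_take, min_eq_left hij.le]
    refine ⟨l.take i, (l.take j).drop i, l.drop j, ?_, ?_, ?_⟩
    · rw [← List.append_assoc, ← e1, List.take_append_drop, List.take_append_drop]
    · intro h0
      have := congrArg List.length h0
      simp only [List.length_drop, List.length_take, List.length_nil] at this
      omega
    · have h1 : (l.take i).prod * ((l.take j).drop i).prod = (l.take j).prod := by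
        rw [← e1, ← List.prod_append, List.take_append_drop]
      rw [← hp] at h1
      exact mul_left_cancel (h1.trans (mul_one _).symm)
  simp only [Function.Injective, not_forall] at hf
  obtain ⟨i, j, hp, hne⟩ := hf
  rcases lt_trichotomy (i : ℕ) (j : ℕ) with h1 | h1 | h1
  · exact key i j h1 (by have := j.2; omega) hp
  · exact absurd (Fin.ext h1) hne
  · exact key j i h1 (by have := i.2; omega) hp.symm

/-- Among `|G|` handles, one becomes `(y, 1)`. -/
theorem extract_one [Finite G] (L : List (G × G)) (h : Nat.card G ≤ L.length) :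
    ∃ (y : G) (L' : List (G × G)), L'.length + 1 = L.length ∧ Mv (hds L) (hd y 1 :: hds L') := by
  obtain ⟨A', S', T', hl, hS, hp⟩ := exists_prod_eq_one (L.map Prod.fst) (by simpa using h)
  obtain ⟨A, ST, rfl, rfl, hST⟩ := List.map_eq_append_iff.1 hl
  obtain ⟨S, T, rfl, rfl, rfl⟩ := List.map_eq_append_iff.1 hST
  have hS' : S ≠ [] := by
    rintro rfl
    exact hS rfl
  obtain ⟨y, S1, hS1, h1⟩ := accumulate S hS' (hds T)
  rw [hp] at h1
  obtain ⟨y', h2⟩ := to_front A y (hds S1 ++ hds T)
  have h3 := Mv.rot 1 y' (hds A ++ (hds S1 ++ hds T))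
  have e1 : 1 * y' * 1⁻¹ = y' := by simp
  rw [e1, inv_one] at h3
  refine ⟨y', A ++ (S1 ++ T), ?_, ?_⟩
  · simp only [List.length_append]
    omega
  · rw [hds_append, hds_append, hds_append, hds_append]
    exact ((Mv.app_left h1 (hds A)).trans h2).trans h3

theorem extract_many [Finite G] : ∀ (l : ℕ) (L : List (G × G)),
    Nat.card G + l ≤ L.length + 1 →
    ∃ (ys : List G) (L' : List (G × G)), ys.length = l ∧
      Mv (hds L) (hds (ys.map fun y => (y, 1)) ++ hds L')
  | 0, L, _ => ⟨[], L, rfl, Mv.refl _⟩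
  | l + 1, L, h => by
    obtain ⟨y, L1, hL1, h1⟩ := extract_one L (by omega)
    obtain ⟨ys, L', hys, h2⟩ := extract_many l L1 (by omega)
    exact ⟨y :: ys, L', by simp [hys], h1.trans (Mv.cons _ h2)⟩

theorem slide_mem : ∀ (ys : List G) (y : G), y ∈ ys → ∀ (s : G) (T : List (Item G)),
    Mv (hds (ys.map fun y => (y, 1)) ++ hd s 1 :: T)
      (hds (ys.map fun y => (y, 1)) ++ hd (y * s) 1 :: T)
  | [], y, h, _, _ => by simp at h
  | y0 :: ys, y, h, s, T => by
    rcases List.mem_cons.1 h with rfl | h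
    · have h1 : ∀ s : G, Mv (hds (ys.map fun y => (y, 1)) ++ hd s 1 :: T)
          (hd s 1 :: (hds (ys.map fun y => (y, 1)) ++ T)) := fun s =>
        (to_end s _ T).symm
      have h2 := slideA y s (-1) (hds (ys.map fun y => (y, 1)) ++ T)
      have e : y ^ (- -1 : ℤ) * s = y * s := by simp
      rw [e] at h2
      exact ((Mv.cons (hd y 1) (h1 s)).trans h2).trans (Mv.cons (hd y 1) (h1 (y * s)).symm)
    · exact Mv.cons (hd y0 1) (slide_mem ys y h s T)

theorem slide_closure (ys : List G) (T : List (Item G)) {w : G}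
    (hw : w ∈ Subgroup.closure {y | y ∈ ys}) : ∀ s : G,
    Mv (hds (ys.map fun y => (y, 1)) ++ hd s 1 :: T)
      (hds (ys.map fun y => (y, 1)) ++ hd (w * s) 1 :: T) := by
  induction hw using Subgroup.closure_induction with
  | mem y hy => exact fun s => slide_mem ys y hy s T
  | one => intro s; rw [one_mul]; exact Mv.refl _
  | mul x y _ _ hx hy =>
    intro s
    rw [mul_assoc]
    exact (hy s).trans (hx (y * s))
  | inv x _ hx =>
    intro s
    have := hx (x⁻¹ * s)
    rw [mul_inv_cancel_left] at this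
    exact this.symm

theorem chain_card [Finite G] (ys : List G)
    (h : ∀ A s B, ys = A ++ s :: B → s ∉ Subgroup.closure {y | y ∈ A}) :
    2 ^ ys.length ≤ Nat.card (Subgroup.closure {y | y ∈ ys}) := by
  induction ys using List.reverseRecOn with
  | nil => simpa using Nat.card_pos
  | append_singleton A s ih =>
    have h1 := ih (fun A' s' B' e => h A' s' (B' ++ [s]) (by rw [e]; simp))
    have h2 := h A s [] rfl
    have hle : Subgroup.closure {y | y ∈ A} ≤ Subgroup.closure {y | y ∈ A ++ [s]} :=
      Subgroup.closure_mono (fun y hy => List.mem_append_left _ hy)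
    have hs : s ∈ Subgroup.closure {y | y ∈ A ++ [s]} :=
      Subgroup.subset_closure (by simp)
    obtain ⟨m, hm⟩ := Subgroup.card_dvd_of_le hle
    have hpos : 0 < Nat.card (Subgroup.closure {y | y ∈ A ++ [s]}) := Nat.card_pos
    have hm0 : m ≠ 0 := by
      rintro rfl
      rw [mul_zero] at hm
      omega
    have hm1 : m ≠ 1 := by
      rintro rfl
      rw [mul_one] at hm
      have := Subgroup.eq_of_le_of_card_ge hle hm.le
      rw [this] at h2
      exact h2 hs
    rw [List.length_append, List.length_singleton, pow_succ, hm]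
    exact Nat.mul_le_mul h1 (by omega)

theorem kills_of_one {c : ℕ} (h : ∀ L : List (G × G), c + 1 ≤ L.length →
    ∃ L1 : List (G × G), Mv (hds L) (hds (L1 ++ [(1, 1)]))) : Kills G c := by
  intro k
  induction k with
  | zero => exact fun L _ => ⟨L, by simpa using Mv.refl _⟩
  | succ k ih =>
    intro L hL
    obtain ⟨L1, h1⟩ := h L (by omega)
    have h2 := h1.length_eq
    rw [hds_length, hds_length, List.length_append, List.length_singleton] at h2
    obtain ⟨L2, h3⟩ := ih L1 (by omega)
    refine ⟨L2, h1.trans ?_⟩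
    have h4 := h3.app_right (hds [(1, 1)])
    rw [← hds_append, ← hds_append, List.append_assoc, ← List.replicate_succ'] at h4
    exact h4

/-- In a finite group `G`, all handles but `|G| + log_2 |G| - 1` can be made trivial. -/
theorem kills_finite (G : Type u) [Group G] [Finite G] :
    Kills G (Nat.card G + Nat.log 2 (Nat.card G) - 1) := by
  apply kills_of_one
  intro L hL
  have hpos : 0 < Nat.card G := Nat.card_pos
  obtain ⟨ys, L', hys, h1⟩ := extract_many (Nat.log 2 (Nat.card G) + 1) L (by omega)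
  obtain ⟨A, s, B, rfl, hs⟩ : ∃ A s B, ys = A ++ s :: B ∧ s ∈ Subgroup.closure {y | y ∈ A} := by
    by_contra hcon
    push Not at hcon
    have h2 := chain_card ys (fun A s B e => hcon A s B e)
    have h3 : Nat.card (Subgroup.closure {y | y ∈ ys}) ≤ Nat.card G :=
      Subgroup.card_le_card_group _
    have h4 := Nat.lt_pow_succ_log_self (b := 2) (by norm_num) (Nat.card G)
    rw [hys] at h2
    have : (Nat.log 2 (Nat.card G)).succ = Nat.log 2 (Nat.card G) + 1 := rfl
    omega
  have h5 := slide_closure A (hds (B.map fun y => (y, 1)) ++ hds L')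
    ((Subgroup.closure _).inv_mem hs) s
  rw [inv_mul_cancel] at h5
  have h6 := (to_end (1 : G) (B.map (fun y => (y, 1)) ++ L') []).app_left
    (hds (A.map fun y => (y, 1)))
  refine ⟨A.map (fun y => (y, 1)) ++ (B.map (fun y => (y, 1)) ++ L'), ?_⟩
  refine h1.trans ?_
  rw [List.map_append, List.map_cons, hds_append, hds_cons, List.append_assoc, List.cons_append]
  refine h5.trans ?_
  rw [List.append_nil, hds_append] at h6
  rw [hds_append, hds_append, hds_append, List.append_assoc]
  exact h6

end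

end Pool.Agent.HMv
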